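import Pool.Agent.Helper98.CP.Basic

/-!
MP_82cbb9_al, module OA-4a (blueprint of helper98): Schur's lemma modulo `NQ`.
-/

set_option autoImplicit false

namespace Pool.Agent.CP

open Stage

variable {G V : Type*} [Group G] [AddCommGroup V] [Module ℚ V]

/-- an operator preserving `W₀ ≥ U'` and `U'`, injective on `W₀/U'`, is surjective on `W₀/U'` -/
theorem OA4a.surj_mod [FiniteDimensional ℚ V] (U' W₀ : Submodule ℚ V) (X : V →ₗ[ℚ] V)
    (h1 : ∀ w ∈ W₀, X w ∈ W₀) (h3 : ∀ v ∈ U', X v ∈ U')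
    (h4 : ∀ w ∈ W₀, X w ∈ U' → w ∈ U') : ∀ y ∈ W₀, ∃ w ∈ W₀, y - X w ∈ U' := by
  intro y hy
  let Xr : W₀ →ₗ[ℚ] W₀ := X.restrict h1
  let P : Submodule ℚ W₀ := U'.comap W₀.subtype
  have hP : P ≤ P.comap Xr := by
    intro w hw
    exact h3 _ hw
  let Q : (W₀ ⧸ P) →ₗ[ℚ] (W₀ ⧸ P) := P.mapQ P Xr hP
  have hinj : Function.Injective Q := by
    rw [← LinearMap.ker_eq_bot, Submodule.eq_bot_iff]
    intro w hw
    obtain ⟨w, rfl⟩ := P.mkQ_surjective w
    have h5 : P.mkQ (Xr w) = 0 := hw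
    rw [Submodule.mkQ_apply, Submodule.Quotient.mk_eq_zero] at h5
    rw [Submodule.mkQ_apply, Submodule.Quotient.mk_eq_zero]
    exact h4 _ w.2 h5
  have hsurj : Function.Surjective Q := LinearMap.injective_iff_surjective.1 hinj
  obtain ⟨w, hw⟩ := hsurj (P.mkQ ⟨y, hy⟩)
  obtain ⟨w, rfl⟩ := P.mkQ_surjective w
  have h6 : P.mkQ (Xr w) = P.mkQ ⟨y, hy⟩ := hw
  rw [Submodule.mkQ_apply, Submodule.mkQ_apply, eq_comm, Submodule.Quotient.eq] at h6
  exact ⟨w, w.2, h6⟩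

/-- the submodule of `U` of vectors with `NQ` -/
def OA4a.W₀ (S : Stage G V) (x : V) : Submodule ℚ V where
  carrier := {z | z ∈ S.U ∧ S.NQ x z}
  zero_mem' := ⟨S.U.zero_mem, NQ.zero⟩
  add_mem' := fun ha hb => ⟨S.U.add_mem ha.1 hb.1, ha.2.add hb.2⟩
  smul_mem' := fun q _ ha => ⟨S.U.smul_mem q ha.1, ha.2.smul q⟩

theorem OA4a.main [FiniteDimensional ℚ V] {S : Stage G V} {x : V} (X : V →ₗ[ℚ] V)
    (hU : ∀ v ∈ S.U, X v ∈ S.U) (hU' : ∀ v ∈ S.U', X v ∈ S.U')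
    (hNQ : ∀ v, S.NQ x v → S.NQ x (X v)) (hinj : ∀ v ∈ S.U, X v ∈ S.U' → v ∈ S.U')
    {z : V} (hz : z ∈ S.U) (h : S.NQ x (X z)) : S.NQ x z := by
  obtain ⟨w, hw, hw'⟩ := OA4a.surj_mod S.U' (OA4a.W₀ S x) X
    (fun w hw => ⟨hU _ hw.1, hNQ _ hw.2⟩) hU' (fun w hw h => hinj _ hw.1 h) (X z)
    ⟨hU _ hz, h⟩
  have h1 : z - w ∈ S.U' := by
    apply hinj _ (S.U.sub_mem hz hw.1)
    rw [map_sub]; exact hw'
  have h2 := (NQ.of_mem (x := x) h1).add hw.2
  simpa using h2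

/-- an element acting nontrivially on `U/U'` acts bijectively modulo `NQ` -/
theorem NQ_of_sub_one [FiniteDimensional ℚ V] {S : Stage G V} {x : V} {a : G} (ha : a ∈ S.C x)
    (hn : ¬ S.Triv a) {z : V} (hz : z ∈ S.U) (h : S.NQ x (S.ρ a z - z)) : S.NQ x z := by
  have hX : ∀ v, (S.ρ a - S.ρ 1) v = S.ρ a v - v := by
    intro v; simp
  refine OA4a.main (S.ρ a - S.ρ 1) ?_ ?_ ?_ ?_ hz (by rw [hX]; exact h)
  · intro v hv
    rw [hX]
    exact S.U.sub_mem (S.invU a v hv) hv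
  · intro v hv
    rw [hX]
    exact S.U'.sub_mem (S.invU' a v hv) hv
  · intro v hv
    rw [hX]
    exact (hv.act ha).sub hv
  · have h1 : S.ρ a - S.ρ 1 ∈ Submodule.span ℚ (Set.range S.ρ) :=
      Submodule.sub_mem _ (Submodule.subset_span ⟨a, rfl⟩) (Submodule.subset_span ⟨1, rfl⟩)
    rcases S.schur _ h1 with h2 | h2
    · exact absurd (fun v hv => by rw [← hX]; exact h2 v hv) hn
    · exact h2

theorem OA4a.op_cons (S : Stage G V) (p : ℚ × G) (l : List (ℚ × G)) (v : V) :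
    S.op (p :: l) v = p.1 • S.ρ p.2 v + S.op l v := by
  simp [Stage.op]

theorem OA4a.op_nil (S : Stage G V) (v : V) : S.op [] v = 0 := by
  simp [Stage.op]

theorem OA4a.op_mem_span (S : Stage G V) (l : List (ℚ × G)) :
    S.op l ∈ Submodule.span ℚ (Set.range S.ρ) := by
  unfold Stage.op
  induction l with
  | nil => simp
  | cons p l ih =>
    rw [List.map_cons, List.sum_cons]
    exact Submodule.add_mem _ (Submodule.smul_mem _ _ (Submodule.subset_span ⟨p.2, rfl⟩)) ih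

theorem OA4a.op_U (S : Stage G V) (l : List (ℚ × G)) {v : V} (hv : v ∈ S.U) :
    S.op l v ∈ S.U := by
  induction l with
  | nil => rw [OA4a.op_nil]; exact S.U.zero_mem
  | cons p l ih =>
    rw [OA4a.op_cons]
    exact S.U.add_mem (S.U.smul_mem _ (S.invU _ _ hv)) ih

theorem OA4a.op_U' (S : Stage G V) (l : List (ℚ × G)) {v : V} (hv : v ∈ S.U') :
    S.op l v ∈ S.U' := by
  induction l with
  | nil => rw [OA4a.op_nil]; exact S.U'.zero_mem
  | cons p l ih =>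
    rw [OA4a.op_cons]
    exact S.U'.add_mem (S.U'.smul_mem _ (S.invU' _ _ hv)) ih

theorem OA4a.op_NQ {S : Stage G V} {x : V} {l : List (ℚ × G)} (hl : ∀ p ∈ l, p.2 ∈ S.C x)
    {v : V} (hv : S.NQ x v) : S.NQ x (S.op l v) := by
  induction l with
  | nil => rw [OA4a.op_nil]; exact NQ.zero
  | cons p l ih =>
    rw [OA4a.op_cons]
    exact ((hv.act (hl p (by simp))).smul _).add (ih fun q hq => hl q (by simp [hq]))

/-- same for an operator in the span of `ρ (C x)` -/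
theorem NQ_of_op [FiniteDimensional ℚ V] {S : Stage G V} {x : V} {l : List (ℚ × G)}
    (hl : ∀ p ∈ l, p.2 ∈ S.C x) (hn : ¬ ∀ v ∈ S.U, S.op l v ∈ S.U') {z : V} (hz : z ∈ S.U)
    (h : S.NQ x (S.op l z)) : S.NQ x z := by
  refine OA4a.main (S.op l) (fun v hv => OA4a.op_U S l hv) (fun v hv => OA4a.op_U' S l hv)
    (fun v hv => OA4a.op_NQ hl hv) ?_ hz h
  rcases S.schur _ (OA4a.op_mem_span S l) with h2 | h2
  · exact absurd h2 hn
  · exact h2

end Pool.Agent.CP
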