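import Pool.Agent.Helper98.CP.Basic

/-!
MP_82cbb9_al, module OA-5a (blueprint of helper98): the transporter at one level.
-/

set_option autoImplicit false

namespace Pool.Agent.CP

open Stage

variable {G V : Type*} [Group G] [AddCommGroup V] [Module ℚ V]

/-- a subgroup containing `N` is normal, since `G/N` is abelian -/
theorem OA5a.cl_normal (S : Stage G V) (Λ : List G) : (S.cl Λ).Normal := by
  refine ⟨fun n hn g => ?_⟩
  have h1 : g * n * g⁻¹ * n⁻¹ ∈ S.cl Λ := N_le_cl Λ (S.comm g n)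
  have := (S.cl Λ).mul_mem h1 hn
  simpa using this

theorem OA5a.exists_pw (S : Stage G V) (h : List G) : ∀ (b : List G) (g : G), g ∈ S.cl (b ++ h) →
    ∃ e : List ℤ, e.length = b.length ∧ ∃ a ∈ S.cl h, g = pw b e * a := by
  intro b
  induction b with
  | nil =>
    intro g hg
    exact ⟨[], rfl, g, by simpa using hg, by simp [pw]⟩
  | cons b₀ bs ih =>
    intro g hg
    have hle : S.cl (b₀ :: bs ++ h) ≤ Subgroup.zpowers b₀ ⊔ S.cl (bs ++ h) := by
      apply cl_le
      · intro u hu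
        rw [List.cons_append, List.mem_cons] at hu
        rcases hu with rfl | hu
        · exact Subgroup.mem_sup_left (Subgroup.mem_zpowers _)
        · exact Subgroup.mem_sup_right (mem_cl_of_mem hu)
      · exact (N_le_cl _).trans le_sup_right
    have hg' := hle hg
    haveI := OA5a.cl_normal S (bs ++ h)
    rw [Subgroup.mem_sup_of_normal_right] at hg'
    obtain ⟨y, hy, w, hw, rfl⟩ := hg'
    obtain ⟨e₀, rfl⟩ := Subgroup.mem_zpowers_iff.1 hy
    obtain ⟨e, he, a, ha, rfl⟩ := ih w hw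
    exact ⟨e₀ :: e, by simp [he], a, ha, by simp [pw, mul_assoc]⟩

theorem OA5a.pw_mem {H : Subgroup G} : ∀ (b : List G) (e : List ℤ), (∀ g ∈ b, g ∈ H) →
    pw b e ∈ H := by
  intro b
  induction b with
  | nil => intro e _; simp [pw, H.one_mem]
  | cons b₀ bs ih =>
    intro e hb
    cases e with
    | nil => simp [pw, H.one_mem]
    | cons e₀ es =>
      rw [pw]
      exact H.mul_mem (H.zpow_mem (hb b₀ (by simp)) _) (ih es fun g hg => hb g (by simp [hg]))

/-- left multiplication by an element of `C x` preserves congruence of the cocycle modulo `NB` -/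
theorem OA5a.NB_mul_left {S : Stage G V} {x : V} {s g g' : G} (hs : s ∈ S.C x)
    (h : S.NB x (S.d x g - S.d x g')) : S.NB x (S.d x (s * g) - S.d x (s * g')) := by
  have := h.act hs
  rw [map_sub] at this
  rw [d_mul, d_mul]
  have e : S.ρ s (S.d x g) + S.d x s - (S.ρ s (S.d x g') + S.d x s)
      = S.ρ s (S.d x g) - S.ρ s (S.d x g') := by abel
  rwa [e]

theorem OA5a.closure_orb {S : Stage G V} {x : V} {b h c : List G} (hc : S.Conf x b h c) {a : G}
    (ha : a ∈ Subgroup.closure {g | g ∈ h}) :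
    a ∈ S.C x ∧ ∃ g' ∈ c, S.NB x (S.d x a - S.d x g') := by
  induction ha using Subgroup.closure_induction_left with
  | one => exact ⟨(S.C x).one_mem, 1, hc.one_mem, by rw [sub_self]; exact NB.zero⟩
  | mul_left s hs y _ ih =>
    obtain ⟨hy, g'', hg'', h1⟩ := ih
    obtain ⟨g', hg', h2⟩ := hc.orb g'' hg'' s hs
    have hsC : s ∈ S.C x := hc.h_mem s hs
    exact ⟨(S.C x).mul_mem hsC hy, g', hg', (OA5a.NB_mul_left hsC h1).trans h2⟩
  | inv_mul_cancel s hs y _ ih =>
    obtain ⟨hy, g'', hg'', h1⟩ := ih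
    obtain ⟨g', hg', h2⟩ := hc.orb' g'' hg'' s hs
    have hsC : s⁻¹ ∈ S.C x := (S.C x).inv_mem (hc.h_mem s hs)
    exact ⟨(S.C x).mul_mem hsC hy, g', hg', (OA5a.NB_mul_left hsC h1).trans h2⟩

theorem OA5a.cl_orb {S : Stage G V} {x : V} {b h c : List G} (hc : S.Conf x b h c) {a : G}
    (ha : a ∈ S.cl h) (haC : a ∈ S.C x) : ∃ g' ∈ c, S.NB x (S.d x a - S.d x g') := by
  have ha' : a ∈ Subgroup.closure {g | g ∈ h} ⊔ S.N := ha
  rw [Subgroup.mem_sup_of_normal_right] at ha'
  obtain ⟨w, hw, ν, hν, rfl⟩ := ha'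
  obtain ⟨hwC, g', hg', h1⟩ := OA5a.closure_orb hc hw
  refine ⟨g', hg', NB.trans (NB_of_inv_mul_mem hwC haC ?_) h1⟩
  simpa using hν

theorem T_iff {S : Stage G V} {x z : V} {b h c : List G} (hc : S.Conf x b h c) (hz : z ∈ S.U) :
    S.T x z ↔ ∃ e : List ℤ, e.length = b.length ∧ ∃ g ∈ c, S.NB x (S.d x (pw b e * g) - z) := by
  constructor
  · rintro ⟨g, hg, hgz⟩
    obtain ⟨e, he, a, ha, rfl⟩ := OA5a.exists_pw S h b g (hc.gens hg)
    have hp : pw b e ∈ S.C x := OA5a.pw_mem b e hc.b_mem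
    have haC : a ∈ S.C x := by
      have := (S.C x).mul_mem ((S.C x).inv_mem hp) hg
      simpa using this
    obtain ⟨g', hg', h1⟩ := OA5a.cl_orb hc ha haC
    exact ⟨e, he, g', hg', NB.trans (OA5a.NB_mul_left hp h1).swap (NB.of_mem hgz)⟩
  · rintro ⟨e, he, g, hg, h1⟩
    have hp : pw b e * g ∈ S.C x :=
      (S.C x).mul_mem (OA5a.pw_mem b e hc.b_mem) (hc.c_mem g hg)
    obtain ⟨ν, hν, hνx, h2⟩ := exists_N h1.swap (S.U.sub_mem hz hp)
    have h3 := triv_d (S.triv_of_mem_N hν) hp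
    refine ⟨ν * (pw b e * g), (S.C x).mul_mem hνx hp, ?_⟩
    have := S.U'.add_mem h3 h2
    have e1 : S.d x (ν * (pw b e * g)) - (S.d x ν + S.d x (pw b e * g))
        + (S.d x ν - (z - S.d x (pw b e * g))) = S.d x (ν * (pw b e * g)) - z := by abel
    rwa [e1] at this

end Pool.Agent.CP
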