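import Pool.Agent.Helper98.CP.RDefs

/-!
MP_82cbb9_al, module OR-7 (blueprint of helper98): subgroups of `ℤ^r` are decidable.
-/

set_option autoImplicit false

namespace Pool.Agent.CP

open Stage Pool.Agent.CQ

theorem OR7.exists_coords {r : ℕ} (R : AddSubgroup (Fin r → ℤ)) :
    ∃ (φ : Fin r → (Fin r → ℤ) →ₗ[ℤ] ℤ) (d : Fin r → ℤ), ∀ e, e ∈ R ↔ ∀ i, d i ∣ φ i e := by
  classical
  let N : Submodule ℤ (Fin r → ℤ) := AddSubgroup.toIntSubmodule R
  obtain ⟨n, snf⟩ := N.smithNormalForm (Pi.basisFun ℤ (Fin r))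
  refine ⟨fun i => snf.bM.coord i,
    fun i => if h : ∃ j, snf.f j = i then snf.a h.choose else 0, fun e => ?_⟩
  have hN : e ∈ R ↔ e ∈ N := Iff.rfl
  rw [hN]
  constructor
  · intro he i
    by_cases h : ∃ j, snf.f j = i
    · simp only [dif_pos h, Module.Basis.coord_apply]
      obtain ⟨j, hj⟩ : ∃ j, j = h.choose := ⟨_, rfl⟩
      have hj' : snf.f j = i := by rw [hj]; exact h.choose_spec
      rw [← hj, ← hj']
      have h1 := snf.repr_apply_embedding_eq_repr_smul (⟨e, he⟩ : N) (i := j)
      rw [map_smul, Finsupp.smul_apply, smul_eq_mul] at h1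
      exact ⟨_, h1⟩
    · simp only [dif_neg h, Module.Basis.coord_apply]
      have h1 := snf.repr_eq_zero_of_notMem_range (⟨e, he⟩ : N) (i := i)
        (by rintro ⟨j, hj⟩; exact h ⟨j, hj⟩)
      change snf.bM.repr e i = 0 at h1
      rw [h1]
  · intro hd
    have h1 : e = ∑ i, snf.bM.repr e i • snf.bM i := (snf.bM.sum_repr e).symm
    rw [h1]
    refine Submodule.sum_mem _ fun i _ => ?_
    have h2 := hd i
    by_cases h : ∃ j, snf.f j = i
    · simp only [dif_pos h, Module.Basis.coord_apply] at h2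
      obtain ⟨j, hj⟩ : ∃ j, j = h.choose := ⟨_, rfl⟩
      have hj' : snf.f j = i := by rw [hj]; exact h.choose_spec
      rw [← hj] at h2
      obtain ⟨c, hc⟩ := h2
      rw [hc, ← hj', mul_comm, mul_smul, ← snf.snf j]
      exact N.smul_mem _ (snf.bN j).2
    · simp only [dif_neg h, Module.Basis.coord_apply] at h2
      rw [zero_dvd_iff] at h2
      rw [h2, zero_smul]
      exact N.zero_mem

theorem OR7.c_iadd {α : Type*} [Primcodable α] {f g : α → ℤ} (hf : Computable f)
    (hg : Computable g) : Computable (fun a => f a + g a) := by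
  have h : Primrec₂ (fun x y : ℤ => x + y) := pr_add Primrec.fst Primrec.snd
  exact h.to_comp.comp hf hg

theorem OR7.c_imul {α : Type*} [Primcodable α] {f g : α → ℤ} (hf : Computable f)
    (hg : Computable g) : Computable (fun a => f a * g a) := by
  have h : Primrec₂ (fun x y : ℤ => x * y) := pr_mul Primrec.fst Primrec.snd
  exact h.to_comp.comp hf hg

theorem OR7.c_isum {α ι : Type*} [Primcodable α] [Fintype ι] {f : ι → α → ℤ}
    (hf : ∀ i, Computable (f i)) : Computable (fun a => ∑ i, f i a) := by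
  classical
  have h : ∀ s : Finset ι, Computable (fun a => ∑ i ∈ s, f i a) := by
    intro s
    induction s using Finset.induction_on with
    | empty => exact (Computable.const 0).of_eq (fun a => by simp)
    | insert i s hi ih =>
      exact (OR7.c_iadd (hf i) ih).of_eq (fun a => by rw [Finset.sum_insert hi])
  exact h Finset.univ

theorem OR7.cp_dvd {α : Type*} [Primcodable α] (d : ℤ) {f : α → ℤ} (hf : Computable f) :
    ComputablePred (fun a => d ∣ f a) := by
  have h1 : Computable (fun a => (f a).natAbs) :=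
    (pr_natAbs (α := ℤ) Primrec.id).to_comp.comp hf
  have h2 : Computable (fun a => (f a).natAbs % d.natAbs) :=
    Primrec.nat_mod.to_comp.comp h1 (Computable.const _)
  have h3 := cp_eq h2 (Computable.const 0)
  refine h3.of_eq fun a => ?_
  rw [← Int.natAbs_dvd_natAbs, Nat.dvd_iff_mod_eq_zero]

theorem OR7.c_lin {r : ℕ} (φ : (Fin r → ℤ) →ₗ[ℤ] ℤ) : Computable (fun e : Fin r → ℤ => φ e) := by
  have h1 : Computable (fun e : Fin r → ℤ => ∑ j, e j * φ (Pi.single j 1)) := by
    refine OR7.c_isum fun j => OR7.c_imul (c_app Computable.id j) (Computable.const _)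
  refine h1.of_eq fun e => ?_
  conv_rhs => rw [← (Pi.basisFun ℤ (Fin r)).sum_repr e]
  rw [map_sum]
  refine Finset.sum_congr rfl fun j _ => ?_
  rw [map_smul, smul_eq_mul, Pi.basisFun_repr, Pi.basisFun_apply]

theorem cp_subgroup_int {r : ℕ} (R : AddSubgroup (Fin r → ℤ)) :
    ComputablePred (fun e : Fin r → ℤ => e ∈ R) := by
  obtain ⟨φ, d, h⟩ := OR7.exists_coords R
  have hi : ∀ i, ComputablePred (fun e : Fin r → ℤ => d i ∣ φ i e) :=
    fun i => OR7.cp_dvd (d i) (OR7.c_lin (φ i))
  refine computable_of_re ?_ ?_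
  · exact (re_forall_fintype fun i => (hi i).to_re).of_eq fun e => by rw [h e]
  · exact (re_exists_fintype fun i => (hi i).not.to_re).of_eq fun e => by
      rw [h e, not_forall]

end Pool.Agent.CP
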